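import Pool.Agent.V1127.Cm.Torus
import Pool.Agent.Helper206.BoxS.SphereSC

/-!
# Mapping tori of involutions of the 3-sphere and their smooth finite coverings
-/

set_option autoImplicit false

open Set Filter Topology Function Metric
open scoped Manifold ContDiff

noncomputable section

namespace Pool.Agent.V1127.Cm

section general

variable {E₁ E₂ E₃ H₁ H₂ H₃ M₁ M₂ M₃ : Type} [NormedAddCommGroup E₁] [NormedSpace ℝ E₁]
  [NormedAddCommGroup E₂] [NormedSpace ℝ E₂] [NormedAddCommGroup E₃] [NormedSpace ℝ E₃]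
  [TopologicalSpace H₁] [TopologicalSpace H₂] [TopologicalSpace H₃]
  {I₁ : ModelWithCorners ℝ E₁ H₁} {I₂ : ModelWithCorners ℝ E₂ H₂} {I₃ : ModelWithCorners ℝ E₃ H₃}
  [TopologicalSpace M₁] [ChartedSpace H₁ M₁] [TopologicalSpace M₂] [ChartedSpace H₂ M₂]
  [TopologicalSpace M₃] [ChartedSpace H₃ M₃]

theorem ld_congr {f g : M₁ → M₂} {x : M₁} (hf : IsLocalDiffeomorphAt I₁ I₂ ∞ f x)
    (h : g =ᶠ[𝓝 x] f) : IsLocalDiffeomorphAt I₁ I₂ ∞ g x := by
  obtain ⟨Φ, hx, heq⟩ := hf
  obtain ⟨s, hs, hso, hxs⟩ := mem_nhds_iff.1 h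
  let Ψ : PartialDiffeomorph I₁ I₂ M₁ M₂ ∞ :=
    { toPartialEquiv := (Φ.toOpenPartialHomeomorph.restrOpen s hso).toPartialEquiv
      open_source := (Φ.toOpenPartialHomeomorph.restrOpen s hso).open_source
      open_target := (Φ.toOpenPartialHomeomorph.restrOpen s hso).open_target
      contMDiffOn_toFun := by
        apply Φ.contMDiffOn_toFun.mono
        intro x hx
        change x ∈ (Φ.toOpenPartialHomeomorph.restrOpen s hso).source at hx
        rw [OpenPartialHomeomorph.restrOpen_source] at hx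
        exact hx.1
      contMDiffOn_invFun := by
        apply Φ.contMDiffOn_invFun.mono
        intro x hx
        exact hx.1 }
  refine ⟨Ψ, ?_, ?_⟩
  · change x ∈ (Φ.toOpenPartialHomeomorph.restrOpen s hso).source
    rw [OpenPartialHomeomorph.restrOpen_source]
    exact ⟨hx, hxs⟩
  · intro y hy
    change y ∈ (Φ.toOpenPartialHomeomorph.restrOpen s hso).source at hy
    rw [OpenPartialHomeomorph.restrOpen_source] at hy
    rw [hs hy.2, heq hy.1]
    rfl

/-- a continuous lift of a local diffeomorphism through a local diffeomorphism -/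
theorem ld_lift {p : M₂ → M₃} {g : M₁ → M₂} {e : M₁ → M₃}
    (hp : IsLocalDiffeomorph I₂ I₃ ∞ p) (he : IsLocalDiffeomorph I₁ I₃ ∞ e)
    (hg : Continuous g) (h : ∀ z, p (g z) = e z) : IsLocalDiffeomorph I₁ I₂ ∞ g := by
  intro z
  have hz := hp (g z)
  have h1 : IsLocalDiffeomorphAt I₃ I₂ ∞ hz.localInverse (e z) := by
    rw [← h z]
    exact hz.localInverse_isLocalDiffeomorphAt
  refine ld_congr (IsLocalDiffeomorphAt.comp (hf := he z) (hg := h1)) ?_
  have h2 : ∀ᶠ y in 𝓝 z, g y ∈ hz.localInverse.target :=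
    hg.continuousAt.eventually (hz.localInverse.open_target.mem_nhds hz.localInverse_mem_target)
  filter_upwards [h2] with y hy
  show g y = hz.localInverse (e y)
  rw [← h y]
  exact (hz.localInverse_left_inv hy).symm

/-- two smooth quotients of the same manifold with the same fibres are diffeomorphic -/
theorem quot_diffeo {e₂ : M₁ → M₂} {e₃ : M₁ → M₃} (h₂ : IsLocalDiffeomorph I₁ I₂ ∞ e₂)
    (s₂ : Surjective e₂) (h₃ : IsLocalDiffeomorph I₁ I₃ ∞ e₃) (s₃ : Surjective e₃)
    (h : ∀ z w, e₂ z = e₂ w ↔ e₃ z = e₃ w) : Nonempty (Diffeomorph I₂ I₃ M₂ M₃ ∞) := by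
  choose c hc using s₂
  let Φ : M₂ → M₃ := fun m => e₃ (c m)
  have hΦ : ∀ z, Φ (e₂ z) = e₃ z := fun z => (h _ _).1 (hc (e₂ z))
  have hl : IsLocalDiffeomorph I₂ I₃ ∞ Φ := by
    intro m
    obtain ⟨z, rfl⟩ : ∃ z, e₂ z = m := ⟨c m, hc m⟩
    have hz := h₂ z
    have h4 : hz.localInverse (e₂ z) = z := hz.localInverse_left_inv hz.localInverse_mem_target
    have h1 : IsLocalDiffeomorphAt I₁ I₃ ∞ e₃ (hz.localInverse (e₂ z)) := h₃ _
    refine ld_congr (IsLocalDiffeomorphAt.comp (hf := hz.localInverse_isLocalDiffeomorphAt) (hg := h1)) ?_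
    have h2 : ∀ᶠ y in 𝓝 (e₂ z), y ∈ hz.localInverse.source :=
      hz.localInverse.open_source.mem_nhds hz.localInverse_mem_source
    filter_upwards [h2] with y hy
    show Φ y = e₃ (hz.localInverse y)
    rw [← hΦ, hz.localInverse_right_inv hy]
  have hb : Bijective Φ := by
    refine ⟨fun m m' hm => ?_, fun y => ?_⟩
    · have h5 : e₂ (c m) = e₂ (c m') := (h _ _).2 hm
      rwa [hc, hc] at h5
    · obtain ⟨z, rfl⟩ := s₃ y
      exact ⟨e₂ z, hΦ z⟩
  exact ⟨hl.diffeomorphOfBijective hb⟩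

end general

/-- the unit sphere of `ℝ⁴` -/
abbrev S3 : Type := sphere (0 : EuclideanSpace ℝ (Fin 4)) 1

/-- `N` is, as a smooth manifold, the mapping torus of the involution `ρ` of the 3-sphere -/
def IsMappingTorus (ρ : S3 → S3) (N : Type) [TopologicalSpace N]
    [ChartedSpace (EuclideanSpace ℝ (Fin 4)) N] : Prop :=
  ∃ e : ℝ × S3 → N, IsLocalDiffeomorph ((𝓘(ℝ, ℝ)).prod (𝓡 3)) (𝓡 4) ∞ e ∧ Surjective e ∧
    ∀ z w, e z = e w ↔ ∃ k : ℤ, w = (z.1 + k, if Even k then z.2 else ρ z.2)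

theorem sc_S3 : SimplyConnectedSpace S3 :=
  Pool.Agent.Helper206.BoxS.Sph.simplyConnected_sphere (by simp)

theorem sc_prod : SimplyConnectedSpace (ℝ × S3) := by
  have := sc_S3
  let F : ContinuousMap.HomotopyEquiv (ℝ × S3) S3 :=
    { toFun := ⟨Prod.snd, continuous_snd⟩
      invFun := ⟨fun x => (0, x), by fun_prop⟩
      left_inv := ⟨{ toFun := fun p => ((p.1 : ℝ) * p.2.1, p.2.2)
                     continuous_toFun := by fun_prop
                     map_zero_left := fun x => by simp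
                     map_one_left := fun x => by simp }⟩
      right_inv := by
        have h : (⟨Prod.snd, continuous_snd⟩ : C(ℝ × S3, S3)).comp
            (⟨fun x => (0, x), by fun_prop⟩ : C(S3, ℝ × S3)) = ContinuousMap.id S3 := by
          ext1 x
          rfl
        rw [h] }
  exact F.simplyConnectedSpace

theorem lpc_prod : LocallyPathConnectedSpace (ℝ × S3) := by
  have : LocallyPathConnectedSpace S3 :=
    ChartedSpace.locallyPathConnectedSpace (EuclideanSpace ℝ (Fin 3)) _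
  infer_instance

theorem ld_scale (d : ℝ) (hd : d ≠ 0) : IsLocalDiffeomorph ((𝓘(ℝ, ℝ)).prod (𝓡 3))
    ((𝓘(ℝ, ℝ)).prod (𝓡 3)) ∞ (fun z : ℝ × S3 => (d * z.1, z.2)) := by
  let Φ : Diffeomorph ((𝓘(ℝ, ℝ)).prod (𝓡 3)) ((𝓘(ℝ, ℝ)).prod (𝓡 3)) (ℝ × S3) (ℝ × S3) ∞ :=
    { toFun := fun z => (d * z.1, z.2)
      invFun := fun z => (d⁻¹ * z.1, z.2)
      left_inv := fun z => by
        refine Prod.ext ?_ rfl
        show d⁻¹ * (d * z.1) = z.1
        rw [← mul_assoc, inv_mul_cancel₀ hd, one_mul]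
      right_inv := fun z => by
        refine Prod.ext ?_ rfl
        show d * (d⁻¹ * z.1) = z.1
        rw [← mul_assoc, mul_inv_cancel₀ hd, one_mul]
      contMDiff_toFun :=
        ((contDiff_const.mul contDiff_id : ContDiff ℝ ∞ fun t : ℝ => d * t).contMDiff.comp
          contMDiff_fst).prodMk contMDiff_snd
      contMDiff_invFun :=
        ((contDiff_const.mul contDiff_id : ContDiff ℝ ∞ fun t : ℝ => d⁻¹ * t).contMDiff.comp
          contMDiff_fst).prodMk contMDiff_snd }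
  exact Φ.isLocalDiffeomorph

/-- a closed connected manifold with a local diffeomorphism to the mapping torus of `ρ` is the
mapping torus of `ρ` or of the identity -/
theorem torus_cover {M K : Type} [TopologicalSpace M] [T2Space M] [CompactSpace M]
    [ConnectedSpace M] [ChartedSpace (EuclideanSpace ℝ (Fin 4)) M]
    [TopologicalSpace K] [T2Space K] [ChartedSpace (EuclideanSpace ℝ (Fin 4)) K]
    (ρ : S3 → S3) (hρ : ∀ x, ρ (ρ x) = x) (hρc : Continuous ρ) (hK : IsMappingTorus ρ K)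
    (p : C(M, K)) (hp : IsLocalDiffeomorph (𝓡 4) (𝓡 4) ∞ p) :
    IsMappingTorus id M ∨ IsMappingTorus ρ M := by
  obtain ⟨e, he, hes, hef⟩ := hK
  have := sc_prod
  have := lpc_prod
  obtain ⟨g, d, hd, hpg, hgs, hgf⟩ := cyclic_lift ρ hρ hρc ⟨e, he.contMDiff.continuous⟩ hes
    he.isLocalHomeomorph hef p hp.isLocalHomeomorph
  have hgl : IsLocalDiffeomorph ((𝓘(ℝ, ℝ)).prod (𝓡 3)) (𝓡 4) ∞ g :=
    ld_lift hp he g.continuous hpg
  have hdR : (d : ℝ) ≠ 0 := by exact_mod_cast hd.ne'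
  have hl : IsLocalDiffeomorph ((𝓘(ℝ, ℝ)).prod (𝓡 3)) (𝓡 4) ∞
      (fun z : ℝ × S3 => g ((d : ℝ) * z.1, z.2)) := fun z =>
    IsLocalDiffeomorphAt.comp (hf := ld_scale d hdR z) (g := g) (hg := hgl _)
  have hs : Surjective (fun z : ℝ × S3 => g ((d : ℝ) * z.1, z.2)) := by
    intro m
    obtain ⟨z, rfl⟩ := hgs m
    refine ⟨((d : ℝ)⁻¹ * z.1, z.2), ?_⟩
    show g ((d : ℝ) * ((d : ℝ)⁻¹ * z.1), z.2) = g z
    rw [← mul_assoc, mul_inv_cancel₀ hdR, one_mul]
  have hf : ∀ z w : ℝ × S3, g ((d : ℝ) * z.1, z.2) = g ((d : ℝ) * w.1, w.2) ↔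
      ∃ k : ℤ, w = (z.1 + k, if Even ((d : ℤ) * k) then z.2 else ρ z.2) := by
    intro z w
    rw [hgf]
    refine exists_congr fun k => ?_
    rw [TT, Prod.ext_iff, Prod.ext_iff]
    dsimp only
    refine and_congr_left fun _ => ?_
    push_cast
    constructor
    · intro h
      have h1 : (d : ℝ) * (w.1 - (z.1 + k)) = 0 := by linear_combination h
      rcases mul_eq_zero.1 h1 with h2 | h2
      · exact absurd h2 hdR
      · linarith
    · intro h
      rw [h]
      ring
  rcases Int.even_or_odd (d : ℤ) with hE | hO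
  · refine Or.inl ⟨_, hl, hs, fun z w => (hf z w).trans (exists_congr fun k => ?_)⟩
    rw [if_pos (hE.mul_right k)]
    simp only [id, ite_self]
  · refine Or.inr ⟨_, hl, hs, fun z w => (hf z w).trans (exists_congr fun k => ?_)⟩
    have h1 : Even ((d : ℤ) * k) ↔ Even k := by
      rw [Int.even_mul]
      constructor
      · rintro (h | h)
        · exact absurd h (Int.not_even_iff_odd.2 hO)
        · exact h
      · exact Or.inr
    simp only [h1]

theorem torus_unique {ρ : S3 → S3} {M N : Type} [TopologicalSpace M]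
    [ChartedSpace (EuclideanSpace ℝ (Fin 4)) M] [TopologicalSpace N]
    [ChartedSpace (EuclideanSpace ℝ (Fin 4)) N] (hM : IsMappingTorus ρ M)
    (hN : IsMappingTorus ρ N) : Nonempty (Diffeomorph (𝓡 4) (𝓡 4) M N ∞) := by
  obtain ⟨e, he, hes, hef⟩ := hM
  obtain ⟨e', he', hes', hef'⟩ := hN
  exact quot_diffeo he hes he' hes' fun z w => by rw [hef, hef']

end Pool.Agent.V1127.Cm
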