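import Mathlib.Topology.Homotopy.Lifting
import Mathlib.Topology.Covering.Basic
import Mathlib.Topology.Homotopy.Equiv

/-!
# Local homeomorphisms of compact spaces which are homotopy equivalences are bijective
-/

set_option autoImplicit false

open Set Filter Topology Function

namespace Pool.Agent.V1127.Cm

theorem clopen_path {X : Type} [TopologicalSpace X] {U : Set X} (hU : IsClopen U)
    (γ : unitInterval → X) (hγ : Continuous γ) {a b : unitInterval} (ha : γ a ∈ U) : γ b ∈ U :=
  (isPreconnected_range hγ).subset_isClopen hU ⟨γ a, mem_range_self a, ha⟩ (mem_range_self b)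

/-- A local homeomorphism of a compact Hausdorff space to a Hausdorff space which has a homotopy
inverse is bijective. -/
theorem bijective_of_homotopy {X Y : Type} [TopologicalSpace X] [CompactSpace X] [T2Space X]
    [TopologicalSpace Y] [T2Space Y] (p : C(X, Y)) (hp : IsLocalHomeomorph p) (g : C(Y, X))
    (h1 : (p.comp g).Homotopic (ContinuousMap.id Y))
    (h2 : (g.comp p).Homotopic (ContinuousMap.id X)) : Bijective p := by
  have cov : IsCoveringMap p := isLocalHomeomorph_iff_isCoveringMap.1 hp
  obtain ⟨K⟩ := h1
  obtain ⟨G⟩ := h2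
  have hK0 : ∀ y, K.toContinuousMap (0, y) = p (g y) := fun y => K.apply_zero y
  let L : C(unitInterval × Y, X) := cov.liftHomotopy K.toContinuousMap g hK0
  have hL0 : ∀ y, L (0, y) = g y := fun y => cov.liftHomotopy_zero K.toContinuousMap g hK0 y
  have hL : ∀ t y, p (L (t, y)) = K (t, y) := fun t y =>
    congrFun (cov.liftHomotopy_lifts K.toContinuousMap g hK0) (t, y)
  let s : Y → X := fun y => L (1, y)
  have hsc : Continuous s := L.continuous.comp (continuous_const.prodMk continuous_id)
  have hps : ∀ y, p (s y) = y := fun y => by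
    rw [hL 1 y]
    exact K.apply_one y
  have hs : IsLocalHomeomorph s := by
    refine IsLocalHomeomorph.of_comp (g := p) (f := s) ?_ hp hsc
    have h3 : p ∘ s = id := funext hps
    rw [h3]
    exact (Homeomorph.refl Y).isLocalHomeomorph
  have hclosed : IsClosed (range s) := by
    have h3 : range s = {x | s (p x) = x} := by
      ext x
      constructor
      · rintro ⟨y, rfl⟩
        show s (p (s y)) = s y
        rw [hps]
      · intro hx
        exact ⟨p x, hx⟩
    rw [h3]
    exact isClosed_eq (hsc.comp p.continuous) continuous_id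
  have hclopen : IsClopen (range s) := ⟨hclosed, hs.isOpenMap.isOpen_range⟩
  have hsurj : ∀ x, x ∈ range s := by
    intro x
    have h3 : L (1, p x) ∈ range s := ⟨p x, rfl⟩
    have h4 : L (0, p x) ∈ range s :=
      clopen_path hclopen (fun t => L (t, p x))
        (L.continuous.comp (continuous_id.prodMk continuous_const)) (a := 1) (b := 0) h3
    rw [hL0] at h4
    have h5 : G (0, x) = g (p x) := G.apply_zero x
    have h6 : G (1, x) = x := G.apply_one x
    have h7 : G (0, x) ∈ range s := by rw [h5]; exact h4
    have h8 := clopen_path hclopen (fun t => G (t, x))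
      (G.continuous.comp (continuous_id.prodMk continuous_const)) (a := 0) (b := 1) h7
    have h9 : G (1, x) ∈ range s := h8
    rwa [h6] at h9
  refine ⟨fun a b hab => ?_, fun y => ⟨s y, hps y⟩⟩
  obtain ⟨a', rfl⟩ := hsurj a
  obtain ⟨b', rfl⟩ := hsurj b
  rw [hps, hps] at hab
  rw [hab]

end Pool.Agent.V1127.Cm
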