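import Pool.Agent.V1127.Cm.Step
import Pool.Agent.Y954.SH.MollS
import Pool.Agent.Y270.SH.MollP
import Pool.Agent.Y977.SH.Disp

/-!
# Smoothing of a cone monotone map near a compact set

The induction over finitely many boxes, with the cone monotonicity kept in all of them.
-/

set_option autoImplicit false

open Set Filter Topology Metric Function MeasureTheory
open scoped Manifold ContDiff

noncomputable section

namespace Pool.Agent.V1127.Cm

open Pool.Agent.Y522 Pool.Agent.Y66.CM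

theorem exists_lower {N : ℕ} (f : Fin N → ℝ) (hf : ∀ j, 0 < f j) :
    ∃ κ : ℝ, 0 < κ ∧ ∀ j, κ ≤ f j := by
  have h0 : 0 ≤ ∑ j, (f j)⁻¹ := Finset.sum_nonneg fun j _ => (inv_pos.2 (hf j)).le
  refine ⟨(∑ j, (f j)⁻¹ + 1)⁻¹, inv_pos.2 (by linarith), fun j => ?_⟩
  rw [inv_le_comm₀ (by linarith) (hf j)]
  have h1 : (f j)⁻¹ ≤ ∑ j, (f j)⁻¹ :=
    Finset.single_le_sum (f := fun j => (f j)⁻¹) (fun j _ => (inv_pos.2 (hf j)).le)
      (Finset.mem_univ j)
  linarith

theorem cphase (hS : StCStep) : StCPhase := by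
  intro n X _ _ _ _ F W K hW hF hFx hK hKW
  classical
  have hopen : IsOpen {x | LD n F x} := isOpen_iff_eventually.2 fun x hx => hx.eventually
  have hK' : IsCompact (K ∩ {x | ¬ LD n F x}) := hK.inter_right hopen.isClosed_compl
  have h1 : ∀ x, x ∈ K ∩ {x | ¬ LD n F x} → ∃ (B : E n → X) (κ : ℝ), 0 < κ ∧ B 0 = x ∧
      InjOn B (closedBall 0 2) ∧ (∀ z ∈ closedBall 0 2, LD n B z) ∧
      (∀ z ∈ closedBall 0 2, B z ∈ W) ∧ CBox n F B 2 κ :=
    fun x hx => cbox_exists hW (hKW hx.1) ((hFx x (hKW hx.1)).resolve_left hx.2)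
  choose! B κ hκ hB0 hBi hBd hBW hBm using h1
  have hU : ∀ x (hx : x ∈ K ∩ {x | ¬ LD n F x}), B x '' ball 0 (1 / 2) ∈ 𝓝 x := by
    intro x hx
    have h2 : LD n (B x) 0 := hBd x hx 0 (by simp)
    have h3 := h2.image_mem_nhds (ball_mem_nhds (0 : E n) (by norm_num : (0 : ℝ) < 1 / 2))
    rwa [hB0 x hx] at h3
  obtain ⟨t, ht⟩ := hK'.elim_nhds_subcover' (fun x _ => B x '' ball 0 (1 / 2)) hU
  set N := t.card with hN
  set A : Fin N → E n → X := fun j => B ((t.equivFin.symm j).1 : X) with hA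
  have hAK : ∀ j : Fin N, ((t.equivFin.symm j).1 : X) ∈ K ∩ {x | ¬ LD n F x} := fun j =>
    (t.equivFin.symm j).1.2
  obtain ⟨κ₀, hκ0, hκ1⟩ := exists_lower (fun j : Fin N => κ ((t.equivFin.symm j).1 : X))
    (fun j => hκ _ (hAK j))
  have hAi : ∀ j, InjOn (A j) (closedBall 0 2) := fun j => hBi _ (hAK j)
  have hAd : ∀ j, ∀ z ∈ closedBall (0 : E n) 2, LD n (A j) z := fun j => hBd _ (hAK j)
  have hAW : ∀ j, ∀ z ∈ closedBall (0 : E n) 2, A j z ∈ W := fun j => hBW _ (hAK j)
  have hcov : ∀ x ∈ K, ¬ LD n F x → ∃ j z, ‖z‖ ≤ 1 / 2 ∧ A j z = x := by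
    intro x hxK hx
    have h2 := ht ⟨hxK, hx⟩
    rw [mem_iUnion₂] at h2
    obtain ⟨y, hy, z, hz, hzx⟩ := h2
    refine ⟨t.equivFin ⟨y, hy⟩, z, ?_, ?_⟩
    · rw [mem_ball_zero_iff] at hz
      exact hz.le
    · simp only [hA, Equiv.symm_apply_apply]
      exact hzx
  obtain ⟨C, hCdef⟩ : ∃ C : Set X, C = ⋃ j, A j '' closedBall 0 1 := ⟨_, rfl⟩
  have hCc : IsCompact C := by
    rw [hCdef]
    apply isCompact_iUnion
    intro j
    apply (isCompact_closedBall _ _).image_of_continuousOn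
    intro z hz
    exact (hAd j z (closedBall_subset_closedBall (by norm_num) hz)).continuousAt.continuousWithinAt
  refine ⟨C, hCc, ?_, ?_⟩
  · rw [hCdef]
    refine iUnion_subset fun j => ?_
    rintro _ ⟨z, hz, rfl⟩
    exact hAW j z (closedBall_subset_closedBall (by norm_num) hz)
  intro e he
  have hNe : (0 : ℝ) < (N : ℝ) + 1 := by positivity
  obtain ⟨e1, he1, he1'⟩ : ∃ e1 : ℝ, 0 < e1 ∧ N * e1 ≤ e := by
    refine ⟨e / (N + 1), by positivity, ?_⟩
    rw [mul_div_assoc', div_le_iff₀ hNe]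
    nlinarith
  -- the induction
  have key : ∀ i : ℕ, i ≤ N → ∃ F' : X → E n, ContinuousOn F' W ∧
      (∀ p, (∀ j, p ∉ A j '' closedBall 0 1) → F' p = F p) ∧ (∀ p, ‖F' p - F p‖ ≤ i * e1) ∧
      (∀ p, LD n F p → LD n F' p) ∧
      (∀ j : Fin N, (j : ℕ) < i → ∀ z, ‖z‖ ≤ 1 / 2 → LD n F' (A j z)) ∧
      ∀ j, CBox n F' (A j) (2 - i / (2 * N)) (κ₀ * (1 - i / (2 * N))) := by
    intro i
    induction i with
    | zero =>
      intro _
      refine ⟨F, hF, fun _ _ => rfl, fun p => by simp, fun _ h => h,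
        fun j hj => absurd hj (by omega), fun j => ?_⟩
      refine CBox.mono (hBm _ (hAK j)) (by simp) ?_
      have := hκ1 j
      simpa using this
    | succ i ih =>
      intro hi
      obtain ⟨F', h2, h4, h3, h5, h6, h7⟩ := ih (by omega)
      have hN0 : (0 : ℝ) < N := by exact_mod_cast (by omega : 0 < N)
      have hiN : ((i : ℝ) + 1) ≤ N := by exact_mod_cast hi
      have hi0 : (0 : ℝ) ≤ i := by positivity
      have e1' : ((i : ℝ) + 1) / (2 * N) ≤ 1 / 2 := by
        rw [div_le_iff₀ (by positivity)]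
        linarith
      have e2 : (i : ℝ) / (2 * N) < ((i : ℝ) + 1) / (2 * N) := by
        apply div_lt_div_of_pos_right _ (by positivity)
        linarith
      have e3 : 0 ≤ (i : ℝ) / (2 * N) := by positivity
      obtain ⟨F'', g1, g2, g3, g4, g5, g6⟩ := hS n X F' W N A ⟨i, by omega⟩ (2 - i / (2 * N))
        (2 - ((i : ℝ) + 1) / (2 * N)) (κ₀ * (1 - i / (2 * N)))
        (κ₀ * (1 - ((i : ℝ) + 1) / (2 * N))) e1 hW h2 hAi hAd hAW (by linarith) (by linarith)
        (by linarith) (mul_pos hκ0 (by linarith)) (mul_lt_mul_of_pos_left (by linarith) hκ0) he1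
        (h7 _).mbox
      refine ⟨F'', g1, ?_, ?_, fun p hp => g4 p (h5 p hp), ?_, ?_⟩
      · intro p hp
        rw [g2 p (hp _), h4 p hp]
      · intro p
        have e5 : F'' p - F p = (F'' p - F' p) + (F' p - F p) := by abel
        rw [e5]
        refine (norm_add_le _ _).trans ?_
        have e6 := g3 p
        have e7 := h3 p
        push_cast
        linarith
      · intro j hj z hz
        rcases Nat.lt_succ_iff_lt_or_eq.1 hj with h8 | h8
        · exact g4 _ (h6 j h8 z hz)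
        · have h9 : j = ⟨i, by omega⟩ := Fin.ext h8
          rw [h9]
          exact g5 z hz
      · intro j u hu
        obtain ⟨c, ℓ, hc, hℓ⟩ := h7 j u hu
        refine ⟨c, ℓ, hc, ?_⟩
        push_cast
        refine CDir_of_dir hc.le fun m hm => ?_
        exact g6 j u (ℓ - m) hu (hℓ.dir hm)
  obtain ⟨F', h2, h4, h3, h5, h6, h7⟩ := key N le_rfl
  have h8 : ∀ p, p ∉ C → F' p = F p := by
    intro p hp
    apply h4
    intro j hj
    rw [hCdef] at hp
    exact hp (mem_iUnion.2 ⟨j, hj⟩)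
  refine ⟨F', h2, h8, fun p => (h3 p).trans he1', h5, ?_, ?_⟩
  · intro x hxK
    by_cases hx : LD n F x
    · exact h5 x hx
    · obtain ⟨j, z, hz, rfl⟩ := hcov x hxK hx
      exact h6 j j.2 z hz
  · intro x hxW
    by_cases hxC : x ∈ C
    · right
      have hxC' := hxC
      rw [hCdef] at hxC'
      obtain ⟨j, z, hz, rfl⟩ := mem_iUnion.1 hxC'
      have hN0 : (0 : ℝ) < N := by exact_mod_cast (lt_of_le_of_lt (Nat.zero_le _) j.2)
      have e4 : (N : ℝ) / (2 * N) = 1 / 2 := by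
        rw [div_eq_div_iff (by positivity) (by norm_num)]
        ring
      have h9 := h7 j
      rw [e4] at h9
      refine CMonE_of_CBox (κ := κ₀ * (1 - 1 / 2)) (by positivity)
        (h9.mono (by norm_num) le_rfl) (mem_closedBall_zero_iff.1 hz)
        (hAd j z (closedBall_subset_closedBall (by norm_num) hz))
    · have h9 : F' =ᶠ[𝓝 x] F := by
        filter_upwards [hCc.isClosed.isOpen_compl.mem_nhds hxC] with y hy
        exact h8 y hy
      rcases hFx x hxW with h10 | h10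
      · exact Or.inl (LD.congr h10 h9)
      · exact Or.inr (CMonE.congr h10 h9)

/-- **Cone monotone maps of closed manifolds are homotopic to local diffeomorphisms.** -/
theorem stCAll : StCAll :=
  call (cstage (cphase (cstep Pool.Agent.Y954.SH.mollS
    (Pool.Agent.Y270.SH.mollP Pool.Agent.Y954.SH.mollS) Pool.Agent.Y977.SH.disp)))

end Pool.Agent.V1127.Cm
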