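import Mathlib.Topology.Homotopy.Lifting
import Mathlib.Topology.Covering.Basic
import Mathlib.Topology.Homotopy.Equiv
import Mathlib.Algebra.Group.Subgroup.ZPowers.Basic
import Mathlib.Data.Int.GCD
import Mathlib

/-!
# Finite coverings of mapping tori of involutions
-/

set_option autoImplicit false

open Set Filter Topology Function

namespace Pool.Agent.V1127.Cm

/-- the `k`-th power of the deck transformation `(t, x) ↦ (t + 1, ρ x)`, `ρ` an involution -/
def TT {S : Type} (ρ : S → S) (k : ℤ) (z : ℝ × S) : ℝ × S :=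
  (z.1 + k, if Even k then z.2 else ρ z.2)

section basic

variable {S : Type} {ρ : S → S}

theorem TT_zero (z : ℝ × S) : TT ρ 0 z = z := by
  simp [TT]

theorem TT_add (hρ : ∀ x, ρ (ρ x) = x) (k l : ℤ) (z : ℝ × S) :
    TT ρ k (TT ρ l z) = TT ρ (k + l) z := by
  unfold TT
  refine Prod.ext ?_ ?_
  · push_cast
    ring
  · dsimp only
    by_cases hk : Even k <;> by_cases hl : Even l
    · rw [if_pos hk, if_pos hl, if_pos (hk.add hl)]
    · have : ¬ Even (k + l) := by
        rw [Int.even_add]; tauto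
      rw [if_pos hk, if_neg hl, if_neg this]
    · have : ¬ Even (k + l) := by
        rw [Int.even_add]; tauto
      rw [if_neg hk, if_pos hl, if_neg this]
    · have : Even (k + l) := by
        rw [Int.even_add]; tauto
      rw [if_neg hk, if_neg hl, if_pos this, hρ]

theorem TT_cont [TopologicalSpace S] (hρ : Continuous ρ) (k : ℤ) :
    Continuous (TT ρ k : ℝ × S → ℝ × S) := by
  unfold TT
  by_cases hk : Even k
  · simp only [if_pos hk]
    fun_prop
  · simp only [if_neg hk]
    fun_prop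

end basic

theorem cyclic_lift {S M N : Type} [TopologicalSpace S] [CompactSpace S]
    [SimplyConnectedSpace (ℝ × S)] [LocallyPathConnectedSpace (ℝ × S)]
    [TopologicalSpace M] [CompactSpace M] [T2Space M] [ConnectedSpace M]
    [TopologicalSpace N] [T2Space N] (ρ : S → S) (hρ : ∀ x, ρ (ρ x) = x) (hρc : Continuous ρ)
    (e : C(ℝ × S, N)) (he : Surjective e) (hel : IsLocalHomeomorph e)
    (hfib : ∀ z w, e z = e w ↔ ∃ k : ℤ, w = TT ρ k z)
    (p : C(M, N)) (hp : IsLocalHomeomorph p) :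
    ∃ (g : C(ℝ × S, M)) (d : ℕ), 0 < d ∧ (∀ z, p (g z) = e z) ∧ Surjective g ∧
      ∀ z w, g z = g w ↔ ∃ k : ℤ, w = TT ρ (d * k) z := by
  have cov : IsCoveringMap p := isLocalHomeomorph_iff_isCoveringMap.1 hp
  obtain ⟨m0⟩ := (inferInstance : Nonempty M)
  obtain ⟨z0, hz0⟩ := he (p m0)
  obtain ⟨g, ⟨hg0, hg⟩, -⟩ := cov.existsUnique_continuousMap_lifts e z0 m0 hz0.symm
  have hpg : ∀ z, p (g z) = e z := fun z => congrFun hg z
  have heT : ∀ k z, e (TT ρ k z) = e z := fun k z => ((hfib z _).2 ⟨k, rfl⟩).symm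
  -- two lifts which agree at one point agree
  have huniq : ∀ (k l : ℤ) (z : ℝ × S), g (TT ρ k z) = g (TT ρ l z) →
      ∀ w, g (TT ρ k w) = g (TT ρ l w) := by
    intro k l z hz w
    have h1 := cov.eq_of_comp_eq (A := ℝ × S) (g₁ := fun w => g (TT ρ k w))
      (g₂ := fun w => g (TT ρ l w)) (g.continuous.comp (TT_cont hρc k))
      (g.continuous.comp (TT_cont hρc l)) (by
        funext w
        show p (g (TT ρ k w)) = p (g (TT ρ l w))
        rw [hpg, hpg, heT, heT]) z hz
    exact congrFun h1 w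
  -- the group of periods
  let P : AddSubgroup ℤ :=
    { carrier := {k | ∀ w, g (TT ρ k w) = g w}
      zero_mem' := fun w => by rw [TT_zero]
      add_mem' := fun {k l} hk hl w => by
        rw [← TT_add hρ, hk, hl]
      neg_mem' := fun {k} hk w => by
        have h1 := hk (TT ρ (-k) w)
        rw [TT_add hρ, add_neg_cancel, TT_zero] at h1
        exact h1.symm }
  have hP : ∀ k, k ∈ P ↔ ∀ w, g (TT ρ k w) = g w := fun k => Iff.rfl
  have hPmem : ∀ k z, g (TT ρ k z) = g z → k ∈ P := by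
    intro k z h w
    have h1 := huniq k 0 z (by rw [TT_zero]; exact h) w
    rwa [TT_zero] at h1
  -- the fibre is finite
  have hfin : (p ⁻¹' {e z0}).Finite := by
    have h1 : IsCompact (p ⁻¹' {e z0}) := (isClosed_singleton.preimage p.continuous).isCompact
    have h2 : DiscreteTopology (p ⁻¹' {e z0}) := (cov (e z0)).discreteTopology_fiber
    exact h1.finite ⟨h2⟩
  obtain ⟨i, j, hij, hgij⟩ : ∃ i j : ℤ, i ≠ j ∧ g (TT ρ i z0) = g (TT ρ j z0) := by
    by_contra hcon
    push Not at hcon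
    have h1 : (fun k : ℤ => g (TT ρ k z0)).Injective := by
      intro i j hij
      by_contra hne
      exact hcon i j hne hij
    refine (Set.infinite_of_injective_forall_mem (s := p ⁻¹' {e z0}) h1 fun k => ?_) hfin
    show p (g (TT ρ k z0)) ∈ ({e z0} : Set N)
    rw [hpg, heT]
    exact mem_singleton _
  have hPne : i - j ∈ P := by
    refine hPmem (i - j) (TT ρ j z0) ?_
    rw [TT_add hρ, sub_add_cancel]
    exact hgij
  obtain ⟨a, ha⟩ := Int.subgroup_cyclic P
  have hmemP : ∀ k, k ∈ P ↔ a ∣ k := by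
    intro k
    rw [ha, AddSubgroup.mem_closure_singleton]
    constructor
    · rintro ⟨n, hn⟩
      exact ⟨n, by rw [← hn, smul_eq_mul, mul_comm]⟩
    · rintro ⟨n, hn⟩
      exact ⟨n, by rw [hn, smul_eq_mul, mul_comm]⟩
  have ha0 : a ≠ 0 := by
    rintro rfl
    have h1 := (hmemP _).1 hPne
    rw [zero_dvd_iff] at h1
    exact hij (sub_eq_zero.1 h1)
  obtain ⟨d, hd⟩ : ∃ d : ℕ, d = a.natAbs := ⟨_, rfl⟩
  have hd0 : 0 < d := by
    rw [hd]
    exact Int.natAbs_pos.2 ha0
  have hmemP' : ∀ k, k ∈ P ↔ (d : ℤ) ∣ k := by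
    intro k
    rw [hmemP, hd, Int.natAbs_dvd]
  have hgfib : ∀ z w, g z = g w ↔ ∃ k : ℤ, w = TT ρ (d * k) z := by
    intro z w
    constructor
    · intro h
      have h1 : e z = e w := by rw [← hpg, ← hpg, h]
      obtain ⟨k, hk⟩ := (hfib z w).1 h1
      have h2 : k ∈ P := hPmem k z (by rw [← hk]; exact h.symm)
      obtain ⟨l, hl⟩ := (hmemP' k).1 h2
      exact ⟨l, by rw [← hl]; exact hk⟩
    · rintro ⟨k, rfl⟩
      have h2 : (d : ℤ) * k ∈ P := (hmemP' _).2 (dvd_mul_right _ _)
      exact ((hP _).1 h2 z).symm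
  refine ⟨g, d, hd0, hpg, ?_, hgfib⟩
  -- surjectivity
  have hgl : IsLocalHomeomorph g := by
    refine IsLocalHomeomorph.of_comp (g := p) (f := g) ?_ hp g.continuous
    rw [hg]
    exact hel
  have hrange : range g = g '' (Icc (0 : ℝ) d ×ˢ univ) := by
    refine Subset.antisymm ?_ (image_subset_range _ _)
    rintro _ ⟨z, rfl⟩
    have hdR : (0 : ℝ) < (d : ℝ) := by exact_mod_cast hd0
    refine ⟨TT ρ (d * (-⌊z.1 / d⌋)) z, ⟨?_, mem_univ _⟩, ?_⟩
    · have h1 := Int.floor_le (z.1 / d)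
      have h2 := Int.lt_floor_add_one (z.1 / d)
      rw [le_div_iff₀ hdR] at h1
      rw [div_lt_iff₀ hdR] at h2
      constructor
      · show 0 ≤ z.1 + (((d : ℤ) * (-⌊z.1 / d⌋) : ℤ) : ℝ)
        push_cast
        push_cast at h1
        nlinarith
      · show z.1 + (((d : ℤ) * (-⌊z.1 / d⌋) : ℤ) : ℝ) ≤ _
        push_cast
        push_cast at h2
        nlinarith
    · exact ((hgfib z _).2 ⟨_, rfl⟩).symm
  have hclosed : IsClosed (range g) := by
    rw [hrange]
    exact ((isCompact_Icc.prod isCompact_univ).image g.continuous).isClosed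
  have huniv : range g = univ :=
    IsClopen.eq_univ ⟨hclosed, hgl.isOpenMap.isOpen_range⟩ ⟨g z0, mem_range_self _⟩
  exact range_eq_univ.1 huniv

end Pool.Agent.V1127.Cm
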